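import Pool.Agent.N204.HR.Stm3

/-!
# HR/F5 (project HR of helper204): the classes of the polynomials in the Frobenius are generated

By helper106.
-/

set_option autoImplicit false
set_option linter.unusedSectionVars false

open CategoryTheory AlgebraicGeometry TensorProduct

universe u

namespace Pool.Agent.N106.HR

open Module
open Pool.Agent.H914 Pool.Agent.H914.VarClass Pool.Agent.H914.VarClass.Obj
  Pool.Agent.H914.WeilCohomology
open Pool.Agent.Y133.Half (pw pfst psnd)
open Pool.Agent.Y121.AHS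
open Pool.Agent.N996.BP (IsCoordinateMap RForm)
open Pool.Agent.N204.RD.Raw (Coh IsLin IsLinear IsSub InSpan coh ap vzero vadd vsmul)
open Pool.Agent.N204.HR Pool.Agent.N204.HR.Raw
open Pool.Agent.N211.BT (isCoord_fst isCoord_snd)

variable {k : Type u} [Field k] {𝒱 : VarClass k} {ops : CycleOps 𝒱}

section General

variable {W : WeilCohomology.{u, 0} ops} {X : 𝒱.Obj}

lemma extOp_pow (F : Module.End W.K (W.H X)) (m : ℕ) (x : W.H (X.prod X)) :
    extOp W (1 : Module.End W.K (W.H X)) (F ^ (m + 1)) x =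
      extOp W 1 F (extOp W 1 (F ^ m) x) := by
  rw [← Module.End.mul_apply, extOp_mul, one_mul, ← pow_succ']

/-- A property which is stable under sums, integral multiples and the operator `1 ⊗ F` is stable
under `1 ⊗ R(F)`. -/
lemma poly_gen (F : Module.End W.K (W.H X)) (G : W.H (X.prod X) → Prop)
    (hadd : ∀ x y, G x → G y → G (x + y)) (hsmul : ∀ (z : ℤ) x, G x → G ((z : W.K) • x))
    (hfrob : ∀ x, G x → G (extOp W 1 F x)) {δ : W.H (X.prod X)} (hδ : G δ)
    (R : Polynomial ℤ) : G (extOp W 1 (Polynomial.aeval F R) δ) := by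
  classical
  have hpow : ∀ m : ℕ, G (extOp W 1 (F ^ m) δ) := by
    intro m
    induction m with
    | zero =>
      rw [pow_zero, extOp_one]
      exact hδ
    | succ m ih =>
      rw [extOp_pow]
      exact hfrob _ ih
  have hz : G 0 := by
    have h1 := hsmul 0 δ hδ
    rw [Int.cast_zero, zero_smul] at h1
    exact h1
  rw [Polynomial.aeval_eq_sum_range, extOp_sum', LinearMap.sum_apply]
  refine Finset.sum_induction _ G hadd hz fun i _ => ?_
  rw [← Int.cast_smul_eq_zsmul W.K (R.coeff i) (F ^ i), extOp_smul_right, LinearMap.smul_apply]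
  exact hsmul _ _ (hpow i)

end General

lemma isCoord_diag {X : 𝒱.Obj} : IsCoordinateMap (X := X) (n := 1) (m := 0)
    (show pw X 0 ⟶ pw X 1 from diag X) := by
  intro i hi
  refine ⟨0, le_rfl, ?_⟩
  rcases Nat.lt_or_ge i 1 with h | h
  · have hi0 : i = 0 := by omega
    subst hi0
    have h1 : Pool.Agent.N996.BP.pr X 1 0 = fst X X ≫ 𝟙 X := rfl
    have h2 : Pool.Agent.N996.BP.pr X 0 0 = 𝟙 X := rfl
    rw [h1, h2]
    show diag X ≫ fst X X ≫ 𝟙 X = 𝟙 X
    rw [Category.comp_id]
    exact lift_fst _ _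
  · have hi1 : i = 1 := by omega
    subst hi1
    have h1 : Pool.Agent.N996.BP.pr X 1 1 = snd X X := rfl
    have h2 : Pool.Agent.N996.BP.pr X 0 0 = 𝟙 X := rfl
    rw [h1, h2]
    exact lift_snd _ _

theorem f5 : S_F5.{u} := by
  intro k _ 𝒱 ops T X ψ E _ _ q φ S hF h1 F hFφ R
  have hδ : Gen (coh T E ψ) (φ 0) (Raw.ext T E S) 1 X.dim
      ((baseW T.W E).push (diag X) 1) := by
    refine Gen.push (O := coh T E ψ) (n := 1) (m := 0) (i := X.dim) (j := 0)
      (x := emL T.W E (1 : T.W.H X)) (f := mapL (diag X)) ⟨diag X, isCoord_diag, rfl⟩ h1 ?_ ?_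
    · intro z
      show (baseW T.W E).tr (X.prod X) ((show (baseW T.W E).H (X.prod X) from z) *
        (baseW T.W E).push (diag X) 1) = (baseW T.W E).tr X ((baseW T.W E).map (diag X) z * 1)
      have h2 : (baseW T.W E).push (diag X) 1 ∈ (baseW T.W E).gr (X.prod X) (2 * X.dim) := by
        have h3 := (baseW T.W E).push_mem (diag X) ((baseW T.W E).one_mem X)
        have e : ((0 : ℕ) : ℤ) + 2 * (((X.prod X).dim : ℤ) - X.dim) = ((2 * X.dim : ℕ) : ℤ) := by
          rw [dim_prod]; push_cast; ring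
        rw [e, grZ_natCast] at h3
        exact h3
      rw [← (baseW T.W E).even_comm h2, (baseW T.W E).tr_push, one_mul, mul_one]
    · show 0 + (X.prod X).dim = X.dim + X.dim
      rw [dim_prod, zero_add]
  refine poly_gen (W := baseW T.W E) F
    (fun x => Gen (coh T E ψ) (φ 0) (Raw.ext T E S) 1 X.dim x)
    (fun x y hx hy => Gen.add (O := coh T E ψ) hx hy) (fun z x hx => ?_) (fun x hx => ?_) hδ R
  · have h2 := Gen.smul (O := coh T E ψ) (z : ℚ) hx
    have h3 : (((z : ℚ)) : E) = (z : E) := Rat.cast_intCast z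
    rw [h3] at h2
    exact h2
  · refine Gen.frob (O := coh T E ψ) (n := 0) (p := mapL (pfst X 0)) (q := mapL (psnd X 0))
      (t := extOp (baseW T.W E) 1 F) ⟨pfst X 0, isCoord_fst 0, rfl⟩ ⟨psnd X 0, isCoord_snd 0, rfl⟩
      (fun x => ?_) ⟨(extOp (baseW T.W E) 1 F).map_add,
        (extOp (baseW T.W E) 1 F).map_smul⟩ (fun a b => ?_) hx
    · intro P hP hSP
      refine (baseW T.W E).kunneth_induction (X := X) (Y := X) (p := fun c => c ∈ P) ?_ ?_ x
      · intro a b ha hb
        exact hP.2.1 a ha b hb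
      · intro i j a _ b _
        exact hSP ⟨a, b, rfl⟩
    · show extOp (baseW T.W E) 1 F ((baseW T.W E).map (fst X X) a * (baseW T.W E).map (snd X X) b) =
        (baseW T.W E).map (fst X X) a * (baseW T.W E).map (snd X X) (φ 0 b)
      rw [extOp_tmul]
      have h2 : F b = φ 0 b := hFφ b
      rw [h2]
      rfl

end Pool.Agent.N106.HR
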